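import Mathlib
import Pool.Agent.Results.MP_800496_gt.KernelLarger


namespace Pool.Agent.Results.MP_800496_gt.GenericCollapse

open Polynomial Pool.Agent.Results.MP_800496_gt.KernelLarger

section Definitions

variable (R : Type) [CommRing R] (a b0 b3 bi : Rˣ) (b1 b2 : R)

/-- `t₀`, the zero of the linear polynomial `p₁`. -/
noncomputable def t0 : R :=
  -(((bi⁻¹ : Rˣ) : R) *
    ((a⁻¹ : Rˣ) ^ 3 * b3 + (a⁻¹ : Rˣ) ^ 2 * b2 + (a⁻¹ : Rˣ) * b1 + b0))

/-- `P = p₂(t₀)` -/
noncomputable def P : R := (p2 R a b0 b3 bi b1 b2).eval (t0 R a b0 b3 bi b1 b2)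

/-- the coefficient of `t` in `q(t)` -/
noncomputable def qA : R :=
  a * b0 ^ 3 + b3 ^ 3 - b1 ^ 2 * b3 - a * b0 * b2 ^ 2 + a ^ 2 * bi * b0 * b1

/-- the constant coefficient of `q(t)` -/
noncomputable def qB : R :=
  a ^ 2 * b0 ^ 2 * b1 - 2 * a ^ 2 * b0 * b2 * b3 + a ^ 3 * bi * b3 ^ 2
    + 2 * a * bi * b0 ^ 2 - 2 * (a⁻¹ : Rˣ) * b0 * b1 * b3 + (a⁻¹ : Rˣ) * b2 * b3 ^ 2
    - a * b1 * b2 * b3 - a * bi * b1 * b3 - b0 * b1 * b2 + a ^ 3 * bi ^ 2 * b0

/-- `q(t)`, a third linear polynomial besides `p₁` and `p₂` -/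
noncomputable def q : R[X] := C (qA R a b0 b3 bi b1 b2) * X + C (qB R a b0 b3 bi b1 b2)

/-- `Q = q(t₀)` -/
noncomputable def Q : R := (q R a b0 b3 bi b1 b2).eval (t0 R a b0 b3 bi b1 b2)

/-- The ideal generated by `t p₁(t)` and `t p₂(t)`, as a submodule. -/
noncomputable def idealI : Submodule R R[X] :=
  (Ideal.span {X * p1 R a b0 b3 bi b1 b2, X * p2 R a b0 b3 bi b1 b2}).restrictScalars R

end Definitions

section Module

variable {R : Type} [CommRing R] {a b0 b3 bi : Rˣ} {b1 b2 : R}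

/-- A small circle may be pushed across a strand. -/
theorem circle_slide {A B : List (ℕ × Piece)} {n : ℕ} (k : ℕ) (hA : width 0 A = some n)
    (hk : k + 1 ≤ n) (hB : width n B = some 0) :
    c a b0 b3 bi b1 b2 (A ++ ([(k + 1, Piece.cup), (k + 1, Piece.cap)] ++ B))
      = c a b0 b3 bi b1 b2 (A ++ ([(k, Piece.cup), (k, Piece.cap)] ++ B)) := by
  have e1 := r2_pn (a := a) (b0 := b0) (b3 := b3) (bi := bi) (b1 := b1) (b2 := b2)
    (A := A ++ [(k + 1, Piece.cup)]) (B := [(k + 1, Piece.cap)] ++ B) (n := n + 2) k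
    (by rw [width_append, hA]; simp [width, Piece.low, Piece.high]; omega) (by omega)
    (by simp [width, Piece.low, Piece.high, hB]; omega)
  have e2 := c_move (a := a) (b0 := b0) (b3 := b3) (bi := bi) (b1 := b1) (b2 := b2)
    (A := A) (Move.cupSlideNeg k) (n := n) (m := n + 2)
    (B := [(k, Piece.neg), (k + 1, Piece.cap)] ++ B) hA
    (by simp [width, Piece.low, Piece.high]; omega)
    (by simp [width, Piece.low, Piece.high]; omega)
    (by simp [width, Piece.low, Piece.high, hB]; omega)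
  have e3 := c_move (a := a) (b0 := b0) (b3 := b3) (bi := bi) (b1 := b1) (b2 := b2)
    (A := A ++ [(k, Piece.cup), (k + 1, Piece.neg)]) (Move.capSlidePos k) (n := n + 2) (m := n)
    (B := B)
    (by rw [width_append, hA]; simp [width, Piece.low, Piece.high]; omega)
    (by simp [width, Piece.low, Piece.high]; omega)
    (by simp [width, Piece.low, Piece.high]; omega) hB
  have e4 := r2_np (a := a) (b0 := b0) (b3 := b3) (bi := bi) (b1 := b1) (b2 := b2)
    (A := A ++ [(k, Piece.cup)]) (B := [(k, Piece.cap)] ++ B) (n := n + 2) (k + 1)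
    (by rw [width_append, hA]; simp [width, Piece.low, Piece.high]; omega) (by omega)
    (by simp [width, Piece.low, Piece.high, hB]; omega)
  simp only [List.append_assoc, List.cons_append, List.nil_append] at e1 e2 e3 e4 ⊢
  rw [← e1, ← e2, ← e3, e4]

variable {B : List (ℕ × Piece)}

theorem w4cap (k : ℕ) (hk : k ≤ 2) (hB : width 2 B = some 0) :
    width 4 ((k, Piece.cap) :: B) = some 0 := by
  simp [width, Piece.low, Piece.high, hB]; omega

/-- circle next to the first minimum -/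
theorem v_cap0 (hB : width 2 B = some 0) :
    c a b0 b3 bi b1 b2 ((0, Piece.cup) :: (2, Piece.cup) :: (0, Piece.cap) :: B)
      = c a b0 b3 bi b1 b2 ((0, Piece.cup) :: (0, Piece.cap) :: (0, Piece.cup) :: B) := by
  have e := c_move (a := a) (b0 := b0) (b3 := b3) (bi := bi) (b1 := b1) (b2 := b2)
    (A := [(0, Piece.cup)]) (Move.exchange 0 0 Piece.cap Piece.cup (by simp [Piece.high])) (n := 2)
    (m := 2) (B := B) rfl rfl rfl hB
  simpa [Piece.low, Piece.high] using e.symm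

theorem v_cap1 (hB : width 2 B = some 0) :
    c a b0 b3 bi b1 b2 ((0, Piece.cup) :: (2, Piece.cup) :: (1, Piece.cap) :: B)
      = c a b0 b3 bi b1 b2 ((0, Piece.cup) :: B) := by
  have e := c_move (a := a) (b0 := b0) (b3 := b3) (bi := bi) (b1 := b1) (b2 := b2)
    (A := [(0, Piece.cup)]) (Move.zigzagL 1) (n := 2) (m := 2) (B := B) rfl rfl rfl hB
  simpa using e

theorem e0_cap0 (hB : width 2 B = some 0) :
    c a b0 b3 bi b1 b2 ((0, Piece.cup) :: (1, Piece.cup) :: (0, Piece.cap) :: B)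
      = c a b0 b3 bi b1 b2 ((0, Piece.cup) :: B) := by
  have e := c_move (a := a) (b0 := b0) (b3 := b3) (bi := bi) (b1 := b1) (b2 := b2)
    (A := [(0, Piece.cup)]) (Move.zigzagL 0) (n := 2) (m := 2) (B := B) rfl rfl rfl hB
  simpa using e

theorem e0_cap1 (hB : width 2 B = some 0) :
    c a b0 b3 bi b1 b2 ((0, Piece.cup) :: (1, Piece.cup) :: (1, Piece.cap) :: B)
      = c a b0 b3 bi b1 b2 ((0, Piece.cup) :: (0, Piece.cap) :: (0, Piece.cup) :: B) := by
  have e1 := circle_slide (a := a) (b0 := b0) (b3 := b3) (bi := bi) (b1 := b1) (b2 := b2)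
    (A := [(0, Piece.cup)]) (B := B) (n := 2) 0 rfl (by omega) hB
  simp only [List.append_assoc, List.cons_append, List.nil_append, Nat.zero_add] at e1
  rw [e1]
  have e3 := c_move (a := a) (b0 := b0) (b3 := b3) (bi := bi) (b1 := b1) (b2 := b2)
    (A := []) (Move.exchange 0 2 Piece.cup Piece.cup (by simp [Piece.high])) (n := 0) (m := 4)
    (B := (0, Piece.cap) :: B) rfl rfl rfl (w4cap 0 (by omega) hB)
  simp only [List.append_assoc, List.cons_append, List.nil_append, Nat.zero_add, Piece.low,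
    Piece.high, Nat.sub_self, Nat.add_zero] at e3
  rw [← e3]
  exact v_cap0 hB

/-- crossings below the cap at the left: values of the closure `[cap 0]` -/
theorem en_cap0 (hB : width 2 B = some 0) :
    c a b0 b3 bi b1 b2 ((0, Piece.cup) :: (1, Piece.cup) :: (0, Piece.neg) :: (0, Piece.cap) :: B)
      = (a : R) • c a b0 b3 bi b1 b2 ((0, Piece.cup) :: B) := by
  have e := kink_cap (a := a) (b0 := b0) (b3 := b3) (bi := bi) (b1 := b1) (b2 := b2)
    (A := [(0, Piece.cup), (1, Piece.cup)]) (B := B) (n := 2) 0 rfl (by omega) hB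
  simp only [List.append_assoc, List.cons_append, List.nil_append] at e
  rw [e, e0_cap0 hB]

theorem ep_cap0 (hB : width 2 B = some 0) :
    (a : R) • c a b0 b3 bi b1 b2
        ((0, Piece.cup) :: (1, Piece.cup) :: (0, Piece.pos) :: (0, Piece.cap) :: B)
      = c a b0 b3 bi b1 b2 ((0, Piece.cup) :: B) := by
  have e := kink_cap (a := a) (b0 := b0) (b3 := b3) (bi := bi) (b1 := b1) (b2 := b2)
    (A := [(0, Piece.cup), (1, Piece.cup), (0, Piece.pos)]) (B := B) (n := 2) 0 rfl (by omega) hB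
  have e' := r2_pn (a := a) (b0 := b0) (b3 := b3) (bi := bi) (b1 := b1) (b2 := b2)
    (A := [(0, Piece.cup), (1, Piece.cup)]) (B := (0, Piece.cap) :: B) (n := 4) 0 rfl (by omega)
    (w4cap 0 (by omega) hB)
  simp only [List.append_assoc, List.cons_append, List.nil_append] at e e'
  rw [← e, e', e0_cap0 hB]

theorem ep_cap1 (hB : width 2 B = some 0) :
    c a b0 b3 bi b1 b2 ((0, Piece.cup) :: (1, Piece.cup) :: (0, Piece.pos) :: (1, Piece.cap) :: B)
      = (a : R) • c a b0 b3 bi b1 b2 ((0, Piece.cup) :: B) := by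
  have e1 := ep_eq (a := a) (b0 := b0) (b3 := b3) (bi := bi) (b1 := b1) (b2 := b2)
    (B := (1, Piece.cap) :: B) (w4cap 1 (by omega) hB)
  have e := kink_cap (a := a) (b0 := b0) (b3 := b3) (bi := bi) (b1 := b1) (b2 := b2)
    (A := [(0, Piece.cup), (2, Piece.cup)]) (B := B) (n := 2) 1 rfl (by omega) hB
  simp only [List.append_assoc, List.cons_append, List.nil_append] at e1 e
  rw [e1, e, v_cap1 hB]

theorem en_cap1 (hB : width 2 B = some 0) :
    (a : R) • c a b0 b3 bi b1 b2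
        ((0, Piece.cup) :: (1, Piece.cup) :: (0, Piece.neg) :: (1, Piece.cap) :: B)
      = c a b0 b3 bi b1 b2 ((0, Piece.cup) :: B) := by
  have e1 := em_eq (a := a) (b0 := b0) (b3 := b3) (bi := bi) (b1 := b1) (b2 := b2)
    (B := (1, Piece.cap) :: B) (w4cap 1 (by omega) hB)
  have e := kink_cap (a := a) (b0 := b0) (b3 := b3) (bi := bi) (b1 := b1) (b2 := b2)
    (A := [(0, Piece.cup), (2, Piece.cup), (1, Piece.pos)]) (B := B) (n := 2) 1 rfl (by omega) hB
  have e' := r2_pn (a := a) (b0 := b0) (b3 := b3) (bi := bi) (b1 := b1) (b2 := b2)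
    (A := [(0, Piece.cup), (2, Piece.cup)]) (B := (1, Piece.cap) :: B) (n := 4) 1 rfl (by omega)
    (w4cap 1 (by omega) hB)
  simp only [List.append_assoc, List.cons_append, List.nil_append] at e1 e e'
  rw [e1, ← e, e', v_cap1 hB]

/-- positive kinks below a cup: used for the denominator closure -/
theorem pos_kink (hB : width 2 B = some 0) :
    (a : R) • c a b0 b3 bi b1 b2 ((0, Piece.cup) :: (0, Piece.pos) :: B)
      = c a b0 b3 bi b1 b2 ((0, Piece.cup) :: B) := by
  have e2 := kink_cup (a := a) (b0 := b0) (b3 := b3) (bi := bi) (b1 := b1) (b2 := b2)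
    (A := []) (B := [(0, Piece.pos)] ++ B) (n := 0) 0 rfl (by omega) hB
  have e3 := r2_np (a := a) (b0 := b0) (b3 := b3) (bi := bi) (b1 := b1) (b2 := b2)
    (A := [(0, Piece.cup)]) (B := B) (n := 2) 0 rfl (by omega) hB
  simp only [List.append_assoc, List.cons_append, List.nil_append] at e2 e3 ⊢
  rw [← e2, e3]

theorem of_smul {M : Type} [AddCommGroup M] [Module R M] {u : Rˣ} {x y : M}
    (h : (u : R) • x = y) : x = ((u⁻¹ : Rˣ) : R) • y := by
  rw [← h, smul_smul, Units.inv_mul, one_smul]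

/-- the relation `p₁(t) L = 0` -/
theorem rel_p1 (hB : width 2 B = some 0) :
    ((a⁻¹ : Rˣ) ^ 3 * b3 + (a⁻¹ : Rˣ) ^ 2 * b2 + (a⁻¹ : Rˣ) * b1 + b0 : R) •
        c a b0 b3 bi b1 b2 ((0, Piece.cup) :: B)
      + (bi : R) • c a b0 b3 bi b1 b2 ((0, Piece.cup) :: (0, Piece.cap) :: (0, Piece.cup) :: B)
      = 0 := by
  have s := c_skein (a := a) (b0 := b0) (b3 := b3) (bi := bi) (b1 := b1) (b2 := b2)
    (A := [(0, Piece.cup)]) (B := B) (n := 2) 0 rfl hB (by omega)
  have k1 := of_smul (pos_kink (a := a) (b0 := b0) (b3 := b3) (bi := bi) (b1 := b1) (b2 := b2) hB)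
  have k2 := of_smul (pos_kink (a := a) (b0 := b0) (b3 := b3) (bi := bi) (b1 := b1) (b2 := b2)
    (B := (0, Piece.pos) :: B) hB)
  have k3 := of_smul (pos_kink (a := a) (b0 := b0) (b3 := b3) (bi := bi) (b1 := b1) (b2 := b2)
    (B := (0, Piece.pos) :: (0, Piece.pos) :: B) hB)
  simp only [List.append_assoc, List.cons_append, List.nil_append] at s
  rw [k3, k2, k1] at s
  generalize c a b0 b3 bi b1 b2 ((0, Piece.cup) :: B) = x at *
  generalize c a b0 b3 bi b1 b2 ((0, Piece.cup) :: (0, Piece.cap) :: (0, Piece.cup) :: B) = y at *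
  rw [← s]
  module

/-- the relation `p₂(t) L = 0` -/
theorem rel_p2 (hB : width 2 B = some 0) :
    (b0 * b1 - b2 * b3 : R) •
        c a b0 b3 bi b1 b2 ((0, Piece.cup) :: (0, Piece.cap) :: (0, Piece.cup) :: B)
      + (((a⁻¹ : Rˣ) * b0 ^ 2 - a * b3 ^ 2) + (a * b0 * b2 - (a⁻¹ : Rˣ) * b1 * b3)
          + bi * (a * b0 - a ^ 2 * b3) : R) • c a b0 b3 bi b1 b2 ((0, Piece.cup) :: B) = 0 := by
  have r := rel1 (a := a) (b0 := b0) (b3 := b3) (bi := bi) (b1 := b1) (b2 := b2)
    (B := (1, Piece.cap) :: B) (w4cap 1 (by omega) hB)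
  have s := rel_p1 (a := a) (b0 := b0) (b3 := b3) (bi := bi) (b1 := b1) (b2 := b2) hB
  simp only [List.append_assoc, List.cons_append, List.nil_append] at r
  have w := of_smul (en_cap1 (a := a) (b0 := b0) (b3 := b3) (bi := bi) (b1 := b1) (b2 := b2) hB)
  rw [ep_cap1 hB, v_cap1 hB, w, e0_cap1 hB] at r
  generalize c a b0 b3 bi b1 b2 ((0, Piece.cup) :: B) = x at *
  generalize c a b0 b3 bi b1 b2 ((0, Piece.cup) :: (0, Piece.cap) :: (0, Piece.cup) :: B) = y at *
  have ha : (a : R) * ((a⁻¹ : Rˣ) : R) = 1 := Units.mul_inv a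
  have key : (b3 : R) • ((b0 * b1 - b2 * b3 : R) • y
      + (((a⁻¹ : Rˣ) * b0 ^ 2 - a * b3 ^ 2) + (a * b0 * b2 - (a⁻¹ : Rˣ) * b1 * b3)
          + bi * (a * b0 - a ^ 2 * b3) : R) • x) = (b3 : R) • 0 := by
    generalize ((a⁻¹ : Rˣ) : R) = ai at *
    have e2 : (b3 : R) * ((ai * b0 ^ 2 - a * b3 ^ 2) + (a * b0 * b2 - ai * b1 * b3)
          + bi * (a * b0 - a ^ 2 * b3))
        = (a ^ 2 * b0 ^ 2) * (ai ^ 3 * b3 + ai ^ 2 * b2 + ai * b1 + b0)
          - ((a * b0 ^ 3 + b3 ^ 3) * a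
            + (a * b0 ^ 2 * b1 - a * b0 * b2 * b3 + a ^ 2 * bi * b3 ^ 2)
            + (a * b0 ^ 2 * b2 + b1 * b3 ^ 2 - a ^ 2 * bi * b0 * b3) * ai) := by
      grind
    rw [smul_add, smul_smul, smul_smul, e2]
    linear_combination (norm := module) ((a : R) ^ 2 * b0 ^ 2) • s - r
  rw [of_smul key, smul_smul, Units.inv_mul, one_smul]

/-- the third relation `q(t) L = 0` -/
theorem rel_q (hB : width 2 B = some 0) :
    (a * b0 ^ 3 + b3 ^ 3 - b1 ^ 2 * b3 - a * b0 * b2 ^ 2 + a ^ 2 * bi * b0 * b1 : R) •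
        c a b0 b3 bi b1 b2 ((0, Piece.cup) :: (0, Piece.cap) :: (0, Piece.cup) :: B)
      + (a ^ 2 * b0 ^ 2 * b1 - 2 * a ^ 2 * b0 * b2 * b3 + a ^ 3 * bi * b3 ^ 2
          + 2 * a * bi * b0 ^ 2 - 2 * (a⁻¹ : Rˣ) * b0 * b1 * b3 + (a⁻¹ : Rˣ) * b2 * b3 ^ 2
          - a * b1 * b2 * b3 - a * bi * b1 * b3 - b0 * b1 * b2 + a ^ 3 * bi ^ 2 * b0 : R) •
        c a b0 b3 bi b1 b2 ((0, Piece.cup) :: B) = 0 := by
  have r := rel1 (a := a) (b0 := b0) (b3 := b3) (bi := bi) (b1 := b1) (b2 := b2)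
    (B := (1, Piece.pos) :: (0, Piece.cap) :: B) (by
      simpa [width, Piece.low, Piece.high] using hB)
  have s := rel_p2 (a := a) (b0 := b0) (b3 := b3) (bi := bi) (b1 := b1) (b2 := b2) hB
  -- the values of the closures
  have r1 := ep_eq (a := a) (b0 := b0) (b3 := b3) (bi := bi) (b1 := b1) (b2 := b2)
    (B := (1, Piece.pos) :: (0, Piece.cap) :: B) (by
      simpa [width, Piece.low, Piece.high] using hB)
  have r1' := r2_np (a := a) (b0 := b0) (b3 := b3) (bi := bi) (b1 := b1) (b2 := b2)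
    (A := [(0, Piece.cup), (2, Piece.cup)]) (B := (0, Piece.cap) :: B) (n := 4) 1 rfl (by omega)
    (w4cap 0 (by omega) hB)
  have r2 := em_eq (a := a) (b0 := b0) (b3 := b3) (bi := bi) (b1 := b1) (b2 := b2)
    (B := (0, Piece.cap) :: B) (w4cap 0 (by omega) hB)
  have r3 := em_eq (a := a) (b0 := b0) (b3 := b3) (bi := bi) (b1 := b1) (b2 := b2)
    (B := (1, Piece.pos) :: (0, Piece.cap) :: B) (by
      simpa [width, Piece.low, Piece.high] using hB)
  have r4 := of_smul (e0_pos (a := a) (b0 := b0) (b3 := b3) (bi := bi) (b1 := b1) (b2 := b2)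
    (B := (0, Piece.cap) :: B) (w4cap 0 (by omega) hB))
  -- the vertical skein relation
  have v := c_skein (a := a) (b0 := b0) (b3 := b3) (bi := bi) (b1 := b1) (b2 := b2)
    (A := [(0, Piece.cup), (2, Piece.cup), (1, Piece.neg)]) (B := (0, Piece.cap) :: B) (n := 4) 1
    rfl (w4cap 0 (by omega) hB) (by omega)
  have v1 := ep_eq (a := a) (b0 := b0) (b3 := b3) (bi := bi) (b1 := b1) (b2 := b2)
    (B := (0, Piece.cap) :: B) (w4cap 0 (by omega) hB)
  have v2 := r2_np (a := a) (b0 := b0) (b3 := b3) (bi := bi) (b1 := b1) (b2 := b2)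
    (A := [(0, Piece.cup), (2, Piece.cup)]) (B := (1, Piece.pos) :: (0, Piece.cap) :: B) (n := 4) 1
    rfl (by omega) (by simpa [width, Piece.low, Piece.high] using hB)
  have v3 := r2_np (a := a) (b0 := b0) (b3 := b3) (bi := bi) (b1 := b1) (b2 := b2)
    (A := [(0, Piece.cup), (2, Piece.cup)])
    (B := (1, Piece.pos) :: (1, Piece.pos) :: (0, Piece.cap) :: B) (n := 4) 1
    rfl (by omega) (by simpa [width, Piece.low, Piece.high] using hB)
  have v4 := kink_cap (a := a) (b0 := b0) (b3 := b3) (bi := bi) (b1 := b1) (b2 := b2)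
    (A := [(0, Piece.cup), (2, Piece.cup)]) (B := (1, Piece.cup) :: (0, Piece.cap) :: B) (n := 2) 1
    rfl (by omega) (by simpa [width, Piece.low, Piece.high] using hB)
  have v5 := v_cap1 (a := a) (b0 := b0) (b3 := b3) (bi := bi) (b1 := b1) (b2 := b2)
    (B := (1, Piece.cup) :: (0, Piece.cap) :: B)
    (by simpa [width, Piece.low, Piece.high] using hB)
  simp only [List.append_assoc, List.cons_append, List.nil_append]
    at r r1 r1' r2 r3 r4 v v1 v2 v3 v4 v5
  rw [r1, r1', v_cap0 hB, ← r2, en_cap0 hB, r3, r4, e0_cap0 hB] at r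
  have w := of_smul (ep_cap0 (a := a) (b0 := b0) (b3 := b3) (bi := bi) (b1 := b1) (b2 := b2) hB)
  rw [← v1, w, r1', v_cap0 hB, v2, ← r2, en_cap0 hB, v3, v4, v5,
    e0_cap0 hB] at v
  generalize c a b0 b3 bi b1 b2 ((0, Piece.cup) :: (2, Piece.cup) :: (1, Piece.pos) ::
    (1, Piece.pos) :: (0, Piece.cap) :: B) = z at *
  generalize c a b0 b3 bi b1 b2 ((0, Piece.cup) :: B) = x at *
  generalize c a b0 b3 bi b1 b2 ((0, Piece.cup) :: (0, Piece.cap) :: (0, Piece.cup) :: B) = y at *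
  have ha : (a : R) * ((a⁻¹ : Rˣ) : R) = 1 := Units.mul_inv a
  have key : (b3 : R) • ((a * b0 ^ 3 + b3 ^ 3 - b1 ^ 2 * b3 - a * b0 * b2 ^ 2
        + a ^ 2 * bi * b0 * b1 : R) • y
      + (a ^ 2 * b0 ^ 2 * b1 - 2 * a ^ 2 * b0 * b2 * b3 + a ^ 3 * bi * b3 ^ 2
          + 2 * a * bi * b0 ^ 2 - 2 * (a⁻¹ : Rˣ) * b0 * b1 * b3 + (a⁻¹ : Rˣ) * b2 * b3 ^ 2
          - a * b1 * b2 * b3 - a * bi * b1 * b3 - b0 * b1 * b2 + a ^ 3 * bi ^ 2 * b0 : R) • x)
      = (b3 : R) • 0 := by
    generalize ((a⁻¹ : Rˣ) : R) = ai at *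
    have e1 : (b3 : R) * (a * b0 ^ 3 + b3 ^ 3 - b1 ^ 2 * b3 - a * b0 * b2 ^ 2
        + a ^ 2 * bi * b0 * b1)
        = b3 * (a * b0 ^ 3 + b3 ^ 3)
          - (a * b0 ^ 2 * b2 + b1 * b3 ^ 2 - a ^ 2 * bi * b0 * b3) * b1
          + (a * b0 * b2) * (b0 * b1 - b2 * b3) := by ring
    have e2 : (b3 : R) * (a ^ 2 * b0 ^ 2 * b1 - 2 * a ^ 2 * b0 * b2 * b3 + a ^ 3 * bi * b3 ^ 2
          + 2 * a * bi * b0 ^ 2 - 2 * ai * b0 * b1 * b3 + ai * b2 * b3 ^ 2
          - a * b1 * b2 * b3 - a * bi * b1 * b3 - b0 * b1 * b2 + a ^ 3 * bi ^ 2 * b0)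
        = b3 * ((a * b0 ^ 2 * b1 - a * b0 * b2 * b3 + a ^ 2 * bi * b3 ^ 2) * a)
          + b3 * ((a ^ 2 * bi * b0 ^ 2 - b0 * b1 * b3 + b2 * b3 ^ 2) * ai)
          - (a * b0 ^ 2 * b2 + b1 * b3 ^ 2 - a ^ 2 * bi * b0 * b3) *
            (b0 * ai + b2 * a + bi * a)
          + (a * b0 * b2) * ((ai * b0 ^ 2 - a * b3 ^ 2) + (a * b0 * b2 - ai * b1 * b3)
            + bi * (a * b0 - a ^ 2 * b3)) := by
      grind
    rw [smul_add, smul_smul, smul_smul, e1, e2]
    linear_combination (norm := module) (b3 : R) • r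
      - (a * b0 ^ 2 * b2 + b1 * b3 ^ 2 - a ^ 2 * bi * b0 * b3 : R) • v
      + ((a : R) * b0 * b2) • s
  rw [of_smul key, smul_smul, Units.inv_mul, one_smul]

/-- a nonempty diagram starts with a local minimum -/
theorem exists_cup {w : List (ℕ × Piece)} (hw : width 0 w = some 0) (hne : w ≠ []) :
    ∃ B, w = (0, Piece.cup) :: B ∧ width 2 B = some 0 := by
  cases w with
  | nil => exact absurd rfl hne
  | cons s B =>
    obtain ⟨k, p⟩ := s
    cases p with
    | cup =>
      by_cases hk : k = 0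
      · subst hk
        exact ⟨B, rfl, by simpa [width, Piece.low, Piece.high] using hw⟩
      · exact absurd hw (by simp [width, Piece.low, hk])
    | cap => exact absurd hw (by simp [width, Piece.low])
    | pos => exact absurd hw (by simp [width, Piece.low])
    | neg => exact absurd hw (by simp [width, Piece.low])

theorem link_relations {w : List (ℕ × Piece)} (hw : width 0 w = some 0) (hne : w ≠ []) :
    c a b0 b3 bi b1 b2 ([(0, Piece.cup), (0, Piece.cap)] ++ w)
      = t0 R a b0 b3 bi b1 b2 • c a b0 b3 bi b1 b2 w ∧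
    P R a b0 b3 bi b1 b2 • c a b0 b3 bi b1 b2 w = 0 ∧
    Q R a b0 b3 bi b1 b2 • c a b0 b3 bi b1 b2 w = 0 := by
  obtain ⟨B, rfl, hB⟩ := exists_cup hw hne
  have h1 := rel_p1 (a := a) (b0 := b0) (b3 := b3) (bi := bi) (b1 := b1) (b2 := b2) hB
  have h2 := rel_p2 (a := a) (b0 := b0) (b3 := b3) (bi := bi) (b1 := b1) (b2 := b2) hB
  have h3 := rel_q (a := a) (b0 := b0) (b3 := b3) (bi := bi) (b1 := b1) (b2 := b2) hB
  simp only [List.cons_append, List.nil_append]
  have h : c a b0 b3 bi b1 b2 ((0, Piece.cup) :: (0, Piece.cap) :: (0, Piece.cup) :: B)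
      = t0 R a b0 b3 bi b1 b2 • c a b0 b3 bi b1 b2 ((0, Piece.cup) :: B) := by
    have h1' := of_smul (eq_neg_of_add_eq_zero_right h1)
    rw [h1', t0, neg_smul, smul_neg, smul_smul]
  refine ⟨h, ?_, ?_⟩
  · rw [h, smul_smul, ← add_smul] at h2
    rw [← h2]
    simp [P, p2]
  · rw [h, smul_smul, ← add_smul] at h3
    rw [← h3]
    simp only [Q, q, eval_add, eval_mul, eval_C, eval_X, qA, qB]

end Module

/-! ### Algebra in `R[X]` -/

section Algebra

variable {R : Type} [CommRing R] {a b0 b3 bi : Rˣ} {b1 b2 : R}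

theorem p1_eval : (p1 R a b0 b3 bi b1 b2).eval (t0 R a b0 b3 bi b1 b2) = 0 := by
  have h : (bi : R) * ((bi⁻¹ : Rˣ) : R) = 1 := Units.mul_inv bi
  simp only [p1, t0, eval_add, eval_mul, eval_C, eval_X]
  linear_combination (-((a⁻¹ : Rˣ) ^ 3 * b3 + (a⁻¹ : Rˣ) ^ 2 * b2 + (a⁻¹ : Rˣ) * b1 + b0 : R)) * h

theorem P_eq : P R a b0 b3 bi b1 b2 = (b0 * b1 - b2 * b3 : R) * t0 R a b0 b3 bi b1 b2
    + (((a⁻¹ : Rˣ) * b0 ^ 2 - a * b3 ^ 2) + (a * b0 * b2 - (a⁻¹ : Rˣ) * b1 * b3)
      + bi * (a * b0 - a ^ 2 * b3) : R) := by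
  simp [P, p2]

/-- `p₂ - P` is a multiple of `p₁`. -/
theorem p2_sub : p2 R a b0 b3 bi b1 b2 - C (P R a b0 b3 bi b1 b2)
    = C ((b0 * b1 - b2 * b3) * (bi⁻¹ : Rˣ)) * p1 R a b0 b3 bi b1 b2 := by
  have h : (C ((bi⁻¹ : Rˣ) : R) : R[X]) * C (bi : R) = 1 := by
    rw [← C_mul, Units.inv_mul, C_1]
  rw [P_eq]
  simp only [p1, p2, t0, C_add, C_mul, C_sub, C_neg, C_pow]
  linear_combination (-((C (b0 : R) * C b1 - C b2 * C (b3 : R)) * X)) * h

theorem mem_I_iff (r : R) : C r * X ∈ idealI R a b0 b3 bi b1 b2 ↔ P R a b0 b3 bi b1 b2 ∣ r := by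
  unfold idealI
  rw [Submodule.restrictScalars_mem, Ideal.mem_span_pair]
  constructor
  · rintro ⟨f, g, h⟩
    have h' : X * (f * p1 R a b0 b3 bi b1 b2 + g * p2 R a b0 b3 bi b1 b2) = X * C r := by
      rw [mul_comm X (C r), ← h]; ring
    have h2 := Polynomial.monic_X.isRegular.left h'
    have h3 := congrArg (Polynomial.eval (t0 R a b0 b3 bi b1 b2)) h2
    rw [eval_add, eval_mul, eval_mul, p1_eval, mul_zero, zero_add, eval_C] at h3
    exact ⟨g.eval (t0 R a b0 b3 bi b1 b2), by rw [← h3, P, mul_comm]⟩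
  · rintro ⟨d, rfl⟩
    refine ⟨-(C d * C ((b0 * b1 - b2 * b3) * (bi⁻¹ : Rˣ))), C d, ?_⟩
    have h := p2_sub (a := a) (b0 := b0) (b3 := b3) (bi := bi) (b1 := b1) (b2 := b2)
    have hc : C (P R a b0 b3 bi b1 b2 * d) = C (P R a b0 b3 bi b1 b2) * C d := C_mul
    rw [hc]
    linear_combination (C d * X) * h

end Algebra

/-! ### The empty link -/

section Empty

theorem step_empty {D E : Diagram} (h : Step D E) : (D.1 = []) = (E.1 = []) := by
  obtain ⟨A, B, X, Y, hm, hD, hE⟩ := h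
  have hX : X ≠ [] := by cases hm <;> simp
  have h1 : D.1 ≠ [] := by
    rw [hD]
    simp [hX]
  have h2 : E.1 ≠ [] := by
    intro h0
    rw [hE] at h0
    simp only [List.append_eq_nil_iff] at h0
    obtain ⟨⟨rfl, rfl⟩, rfl⟩ := h0
    have hw := D.2
    rw [hD] at hw
    cases hm <;> simp [width, Piece.low, Piece.high] at hw
  simp [h1, h2]

/-- the property of a framed link to be empty -/
def IsEmptyLink : FramedLink → Prop :=
  Quot.lift (fun D => D.1 = []) fun _ _ h => step_empty h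

variable {R : Type} [CommRing R] {a b0 b3 bi : Rˣ} {b1 b2 : R}

theorem width_nil : width 0 [] = some 0 := rfl

/-- the framed link given by a diagram -/
def cls (w : List (ℕ × Piece)) (h : width 0 w = some 0) : FramedLink :=
  Quot.mk Step (show Diagram from ⟨w, h⟩)

theorem link_eq {w : List (ℕ × Piece)} (h : width 0 w = some 0) :
    link R w = Finsupp.single (cls w h) 1 := by
  unfold link
  rw [dif_pos h]
  rfl

theorem cls_ne {w : List (ℕ × Piece)} (hw : w ≠ []) (h : width 0 w = some 0) :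
    cls [] width_nil ≠ cls w h := by
  intro he
  have h1 : IsEmptyLink (cls [] width_nil) := show ([] : List (ℕ × Piece)) = [] from rfl
  rw [he] at h1
  exact hw h1

/-- the coefficient of the empty link -/
noncomputable def emptyCoeff (R : Type) [CommRing R] : (FramedLink →₀ R) →ₗ[R] R :=
  Finsupp.lapply (cls [] width_nil)

theorem emptyCoeff_nil : emptyCoeff R (link R []) = 1 := by
  unfold emptyCoeff
  rw [link_eq width_nil, Finsupp.lapply_apply]
  exact Finsupp.single_eq_same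

theorem emptyCoeff_of_ne {w : List (ℕ × Piece)} (hw : w ≠ []) : emptyCoeff R (link R w) = 0 := by
  by_cases h : width 0 w = some 0
  · unfold emptyCoeff
    rw [link_eq h, Finsupp.lapply_apply]
    exact Finsupp.single_eq_of_ne (cls_ne hw h)
  · unfold link
    rw [dif_neg h, map_zero]

theorem relations_le : relations R a b0 b3 bi b1 b2 ≤ LinearMap.ker (emptyCoeff R) := by
  unfold relations
  rw [Submodule.span_le]
  rintro x (⟨A, B, n, k, hA, hB, hk, rfl⟩ | ⟨A, B, n, k, hA, hB, hk, rfl⟩)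
  · have hne : A ≠ [] := by
      rintro rfl
      simp only [width, Option.some.injEq] at hA
      omega
    simp [LinearMap.mem_ker, emptyCoeff_of_ne, hne]
  · have hne : A ≠ [] := by
      rintro rfl
      simp only [width, Option.some.injEq] at hA
      omega
    simp [LinearMap.mem_ker, emptyCoeff_of_ne, hne]

/-- the coefficient of the empty link, on the skein module -/
noncomputable def ε (R : Type) [CommRing R] (a b0 b3 bi : Rˣ) (b1 b2 : R) :
    SkeinModule R a b0 b3 bi b1 b2 →ₗ[R] R :=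
  (relations R a b0 b3 bi b1 b2).liftQ (emptyCoeff R) relations_le

theorem ε_nil : ε R a b0 b3 bi b1 b2 (c a b0 b3 bi b1 b2 []) = 1 := by
  unfold ε c
  rw [Submodule.mkQ_apply, Submodule.liftQ_apply, emptyCoeff_nil]

theorem trivialMap_monomial (i : ℕ) (r : R) :
    trivialMap R a b0 b3 bi b1 b2 (monomial i r) = r • c a b0 b3 bi b1 b2 (trivialLink i) := by
  have : monomial i r = r • (Polynomial.basisMonomials R) i := by
    simp [Polynomial.smul_monomial]
  rw [this, map_smul]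
  unfold trivialMap
  rw [Module.Basis.constr_basis]
  rfl

theorem width_trivialLink (i : ℕ) : width 0 (trivialLink i) = some 0 := by
  induction i with
  | zero => rfl
  | succ i ih =>
    have : trivialLink (i + 1) = (0, Piece.cup) :: (0, Piece.cap) :: trivialLink i := by
      simp [trivialLink, List.replicate_succ]
    rw [this]
    simpa [width, Piece.low, Piece.high] using ih

theorem trivialLink_ne (i : ℕ) (hi : i ≠ 0) : trivialLink i ≠ [] := by
  cases i with
  | zero => exact absurd rfl hi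
  | succ i => simp [trivialLink, List.replicate_succ]

end Empty

/-! ### The main theorems -/

section Final

variable {R : Type} [CommRing R] {a b0 b3 bi : Rˣ} {b1 b2 : R}

theorem trivialMap_eq
    (hz : ∀ w, width 0 w = some 0 → w ≠ [] → c a b0 b3 bi b1 b2 w = 0) (f : R[X]) :
    trivialMap R a b0 b3 bi b1 b2 f = f.coeff 0 • c a b0 b3 bi b1 b2 [] := by
  induction f using Polynomial.induction_on' with
  | add f g hf hg => rw [map_add, hf, hg, coeff_add, add_smul]
  | monomial i r =>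
    rw [trivialMap_monomial]
    by_cases hi : i = 0
    · subst hi
      rw [coeff_monomial, if_pos rfl]
      rfl
    · rw [hz _ (width_trivialLink i) (trivialLink_ne i hi), smul_zero, coeff_monomial, if_neg hi,
        zero_smul]

theorem all_multiples
    (hz : ∀ w, width 0 w = some 0 → w ≠ [] → c a b0 b3 bi b1 b2 w = 0)
    (x : SkeinModule R a b0 b3 bi b1 b2) : ∃ r : R, r • c a b0 b3 bi b1 b2 [] = x := by
  obtain ⟨y, rfl⟩ := Submodule.mkQ_surjective _ x
  induction y using Finsupp.induction_linear with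
  | zero => exact ⟨0, by simp⟩
  | add f g hf hg =>
    obtain ⟨r, hr⟩ := hf
    obtain ⟨s, hs⟩ := hg
    exact ⟨r + s, by rw [map_add, ← hr, ← hs, add_smul]⟩
  | single A r =>
    obtain ⟨⟨w, h⟩, rfl⟩ := Quot.exists_rep A
    have h1 : Finsupp.single (cls w h) r = r • link R w := by
      rw [link_eq h, Finsupp.smul_single, smul_eq_mul, mul_one]
    change ∃ s : R, s • c a b0 b3 bi b1 b2 []
      = (relations R a b0 b3 bi b1 b2).mkQ (Finsupp.single (cls w h) r)
    rw [h1, map_smul]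
    change ∃ s : R, s • c a b0 b3 bi b1 b2 [] = r • c a b0 b3 bi b1 b2 w
    by_cases hw : w = []
    · subst hw
      exact ⟨r, rfl⟩
    · exact ⟨0, by rw [hz w h hw, zero_smul, smul_zero]⟩

theorem smul_empty_injective :
    Function.Injective (fun r : R => r • c a b0 b3 bi b1 b2 []) := by
  intro r s h
  have h1 := congrArg (ε R a b0 b3 bi b1 b2) h
  simpa [ε_nil] using h1

theorem collapse (hPQ : IsCoprime (P R a b0 b3 bi b1 b2) (Q R a b0 b3 bi b1 b2)) :
    Function.Bijective (fun r : R => r • c a b0 b3 bi b1 b2 []) ∧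
    Function.Surjective (trivialMap R a b0 b3 bi b1 b2) ∧
    LinearMap.ker (trivialMap R a b0 b3 bi b1 b2) = (Ideal.span {X}).restrictScalars R ∧
    (LinearMap.ker (trivialMap R a b0 b3 bi b1 b2) = idealI R a b0 b3 bi b1 b2 ↔
      IsUnit (P R a b0 b3 bi b1 b2)) := by
  have hz : ∀ w, width 0 w = some 0 → w ≠ [] → c a b0 b3 bi b1 b2 w = 0 := by
    intro w hw hne
    obtain ⟨-, h1, h2⟩ := link_relations (a := a) (b0 := b0) (b3 := b3) (bi := bi) (b1 := b1)
      (b2 := b2) hw hne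
    obtain ⟨u, v, huv⟩ := hPQ
    rw [← one_smul R (c a b0 b3 bi b1 b2 w), ← huv, add_smul, mul_smul, mul_smul, h1, h2,
      smul_zero, smul_zero, add_zero]
  have hker : LinearMap.ker (trivialMap R a b0 b3 bi b1 b2)
      = (Ideal.span {X}).restrictScalars R := by
    ext f
    rw [LinearMap.mem_ker, trivialMap_eq hz, Submodule.restrictScalars_mem,
      Ideal.mem_span_singleton, Polynomial.X_dvd_iff]
    constructor
    · intro h
      exact smul_empty_injective (a := a) (b0 := b0) (b3 := b3) (bi := bi) (b1 := b1) (b2 := b2)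
        (by simpa using h)
    · intro h
      rw [h, zero_smul]
  refine ⟨⟨smul_empty_injective, all_multiples hz⟩, ?_, hker, ?_⟩
  · intro x
    obtain ⟨r, rfl⟩ := all_multiples hz x
    exact ⟨C r, by rw [trivialMap_eq hz, coeff_C_zero]⟩
  · rw [hker]
    constructor
    · intro h
      have h1 : C (1 : R) * X ∈ idealI R a b0 b3 bi b1 b2 := by
        rw [← h, C_1, one_mul, Submodule.restrictScalars_mem]
        exact Ideal.subset_span rfl
      exact isUnit_of_dvd_one ((mem_I_iff _).1 h1)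
    · intro h
      have h1 : C (1 : R) * X ∈ idealI R a b0 b3 bi b1 b2 := (mem_I_iff _).2 h.dvd
      rw [C_1, one_mul] at h1
      unfold idealI at h1 ⊢
      rw [Submodule.restrictScalars_mem] at h1
      congr 1
      apply le_antisymm
      · rw [Ideal.span_singleton_le_iff_mem]
        exact h1
      · rw [Ideal.span_le]
        rintro x (rfl | rfl)
        · exact Ideal.mul_mem_right _ _ (Ideal.subset_span rfl)
        · exact Ideal.mul_mem_right _ _ (Ideal.subset_span rfl)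

theorem dvd_of_eq
    (h : LinearMap.ker (trivialMap R a b0 b3 bi b1 b2) = idealI R a b0 b3 bi b1 b2) :
    P R a b0 b3 bi b1 b2 ∣ Q R a b0 b3 bi b1 b2 := by
  rw [← mem_I_iff, ← h, LinearMap.mem_ker, C_mul_X_eq_monomial, trivialMap_monomial]
  exact (link_relations (width_trivialLink 1) (trivialLink_ne 1 one_ne_zero)).2.2

theorem Q_eq : Q R a b0 b3 bi b1 b2
    = (a * b0 ^ 3 + b3 ^ 3 - b1 ^ 2 * b3 - a * b0 * b2 ^ 2 + a ^ 2 * bi * b0 * b1 : R)
        * t0 R a b0 b3 bi b1 b2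
      + (a ^ 2 * b0 ^ 2 * b1 - 2 * a ^ 2 * b0 * b2 * b3 + a ^ 3 * bi * b3 ^ 2
          + 2 * a * bi * b0 ^ 2 - 2 * (a⁻¹ : Rˣ) * b0 * b1 * b3 + (a⁻¹ : Rˣ) * b2 * b3 ^ 2
          - a * b1 * b2 * b3 - a * bi * b1 * b3 - b0 * b1 * b2 + a ^ 3 * bi ^ 2 * b0 : R) := by
  simp only [Q, q, eval_add, eval_mul, eval_C, eval_X, qA, qB]

theorem P_special (u w : Rˣ) (m : R) : P R 1 u u w m m = 0 := by
  rw [P_eq]
  simp only [inv_one, Units.val_one]
  ring

theorem Q_special (u w : Rˣ) (m : R) :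
    (w : R) * Q R 1 u u w m m
      = u * ((w + 2 * (u + m)) * (w - (u + m)) * (w + 2 * (u - m))) := by
  have h : (w : R) * ((w⁻¹ : Rˣ) : R) = 1 := Units.mul_inv w
  rw [Q_eq, t0]
  simp only [inv_one, Units.val_one]
  generalize ((w⁻¹ : Rˣ) : R) = v at *
  grind

/-- If some ring homomorphism sends `P` to `0` but not `Q`, the presentation is wrong. -/
theorem ne_of_hom {S : Type} [CommRing S] (m : S) (hm : m * (4 * m ^ 2 - 9) ≠ 0) (φ : R →+* S)
    (ha : φ a = 1) (h0 : φ b0 = 1) (h3 : φ b3 = 1) (hi : φ bi = 1) (h1 : φ b1 = m)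
    (h2 : φ b2 = m) :
    LinearMap.ker (trivialMap R a b0 b3 bi b1 b2) ≠ idealI R a b0 b3 bi b1 b2 := by
  intro h
  have hd := map_dvd φ (dvd_of_eq h)
  have hai : φ ((a⁻¹ : Rˣ) : R) = 1 := by
    have := congrArg φ (Units.mul_inv a)
    rwa [map_mul, ha, one_mul, map_one] at this
  have hbi : φ ((bi⁻¹ : Rˣ) : R) = 1 := by
    have := congrArg φ (Units.mul_inv bi)
    rwa [map_mul, hi, one_mul, map_one] at this
  have hP : φ (P R a b0 b3 bi b1 b2) = 0 := by
    simp [P_eq, t0, ha, h0, h3, hi, h1, h2, hai, hbi]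
  have hQ : φ (Q R a b0 b3 bi b1 b2) = m * (4 * m ^ 2 - 9) := by
    rw [Q_eq, t0]
    simp only [map_add, map_mul, map_sub, map_neg,
      map_pow, ha, h0, h3, hi, h1, h2, hai, hbi, map_ofNat]
    ring
  rw [hP, hQ, zero_dvd_iff] at hd
  exact hm hd

theorem exists_good (S : Type) [CommRing S] [Nontrivial S] :
    ∃ m : S, m * (4 * m ^ 2 - 9) ≠ 0 := by
  by_contra h
  push Not at h
  have h1 := h 1
  have h2 := h 2
  exact one_ne_zero (α := S) (by linear_combination (-3 : S) * h1 - h2)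

end Final

/-! ### The statement -/

/-- the parameters of a (4,infinity) skein module, with `b_∞` invertible -/
structure Par (R : Type) [CommRing R] where
  /-- framing parameter -/
  a : Rˣ
  /-- coefficient of `L₀` -/
  b0 : Rˣ
  /-- coefficient of `L₃` -/
  b3 : Rˣ
  /-- coefficient of `L_∞` -/
  bi : Rˣ
  /-- coefficient of `L₁` -/
  b1 : R
  /-- coefficient of `L₂` -/
  b2 : R

namespace Par

variable {R : Type} [CommRing R] (p : Par R)

/-- class of a diagram in the skein module -/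
noncomputable def cl (w : List (ℕ × Piece)) : SkeinModule R p.a p.b0 p.b3 p.bi p.b1 p.b2 :=
  c p.a p.b0 p.b3 p.bi p.b1 p.b2 w

/-- `t₀`, the zero of `p₁` -/
noncomputable def t₀ : R := t0 R p.a p.b0 p.b3 p.bi p.b1 p.b2

/-- `p₂(t₀)` -/
noncomputable def P : R := GenericCollapse.P R p.a p.b0 p.b3 p.bi p.b1 p.b2

/-- `q(t₀)` -/
noncomputable def Q : R := GenericCollapse.Q R p.a p.b0 p.b3 p.bi p.b1 p.b2

/-- the map `t ^ i ↦ T_i` -/
noncomputable def map : R[X] →ₗ[R] SkeinModule R p.a p.b0 p.b3 p.bi p.b1 p.b2 :=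
  trivialMap R p.a p.b0 p.b3 p.bi p.b1 p.b2

/-- every nonempty link satisfies `T₁ ⊔ L = t₀ L`, `P L = 0` and `Q L = 0` -/
def LinkRelations : Prop :=
  ∀ w : List (ℕ × Piece), width 0 w = some 0 → w ≠ [] →
    p.cl ([(0, Piece.cup), (0, Piece.cap)] ++ w) = p.t₀ • p.cl w ∧
    p.P • p.cl w = 0 ∧ p.Q • p.cl w = 0

/-- the kernel is exactly the ideal generated by `t p₁(t)` and `t p₂(t)` -/
def KernelIsI : Prop :=
  LinearMap.ker p.map = idealI R p.a p.b0 p.b3 p.bi p.b1 p.b2

/-- the skein module is free of rank one on the empty link, and the map `t ^ i ↦ T_i` is onto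
with kernel `(t)` -/
def Collapses : Prop :=
  Function.Bijective (fun r : R => r • p.cl []) ∧ Function.Surjective p.map ∧
    LinearMap.ker p.map = (Ideal.span {X}).restrictScalars R

/-- `φ` sends `a`, `b₀`, `b₃`, `b_∞` to `1` and `b₁`, `b₂` to `s` -/
def Specializes {S : Type} [CommRing S] (φ : R →+* S) (s : S) : Prop :=
  φ p.a = 1 ∧ φ p.b0 = 1 ∧ φ p.b3 = 1 ∧ φ p.bi = 1 ∧ φ p.b1 = s ∧ φ p.b2 = s

end Par

/-- the parameters `a = 1`, `b₀ = b₃ = u`, `b_∞ = w`, `b₁ = b₂ = m` -/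
def fam {R : Type} [CommRing R] (u w : Rˣ) (m : R) : Par R := ⟨1, u, u, w, m, m⟩

/-- **Main theorem.** `p₁` and `p₂` are the polynomials of the question, `t₀` is the zero of `p₁`,
`P = p₂(t₀)`, `Q = q(t₀)`.

1. For every ring and all parameters (with `b_∞` invertible) every nonempty link `L` satisfies
   `T₁ ⊔ L = t₀ L`, `P L = 0` and `Q L = 0`; the presentation of the question forces `P ∣ Q`; and
   if `P` and `Q` are coprime, then the module is free of rank one on the empty link, the map is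
   onto with kernel `(t)`, and the presentation is right exactly when `P` is a unit.
2. For a field and parameters with `P ≠ 0` or `Q ≠ 0` the module is one-dimensional, spanned by
   the empty link, and the presentation is right exactly when `P ≠ 0`.
3. For `a = 1`, `b₀ = b₃ = u`, `b₁ = b₂ = m`, `b_∞ = w` we have `P = 0`, and the kernel is not the
   one of the question as soon as `(w + 2(u + m))(w - (u + m))(w + 2(u - m)) ≠ 0`.
4. So the presentation is wrong over every nonzero ring for suitable parameters,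
5. and for the universal ring of parameters. -/
theorem result :
    (∀ (R : Type) [CommRing R] (p : Par R),
      p.LinkRelations ∧ (p.KernelIsI → p.P ∣ p.Q) ∧
      (IsCoprime p.P p.Q → p.Collapses ∧ (p.KernelIsI ↔ IsUnit p.P))) ∧
    (∀ (K : Type) [Field K] (p : Par K),
      p.P ≠ 0 ∨ p.Q ≠ 0 → p.Collapses ∧ (p.KernelIsI ↔ p.P ≠ 0)) ∧
    (∀ (R : Type) [CommRing R] (u w : Rˣ) (m : R),
      (w + 2 * (u + m) : R) * (w - (u + m)) * (w + 2 * (u - m)) ≠ 0 →
        (fam u w m).P = 0 ∧ (fam u w m).Q ≠ 0 ∧ ¬ (fam u w m).KernelIsI) ∧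
    (∀ (R : Type) [CommRing R] [Nontrivial R], ∃ m : R,
      (fam 1 1 m).P = 0 ∧ (fam 1 1 m).Q ≠ 0 ∧ ¬ (fam 1 1 m).KernelIsI) ∧
    (∀ (U : Type) [CommRing U] (p : Par U) (S : Type) [CommRing S] [Nontrivial S],
      (∀ s : S, ∃ φ : U →+* S, p.Specializes φ s) → ¬ p.KernelIsI) := by
  have three : ∀ (R : Type) [CommRing R] (u w : Rˣ) (m : R),
      (w + 2 * (u + m) : R) * (w - (u + m)) * (w + 2 * (u - m)) ≠ 0 →
        (fam u w m).P = 0 ∧ (fam u w m).Q ≠ 0 ∧ ¬ (fam u w m).KernelIsI := by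
    intro R _ u w m h
    have hP : (fam u w m).P = 0 := P_special u w m
    have hQ : (fam u w m).Q ≠ 0 := by
      intro h0
      have h1 := Q_special u w m
      have h0' : Q R 1 u u w m m = 0 := h0
      rw [h0', mul_zero] at h1
      exact h ((Units.mul_right_eq_zero u).1 h1.symm)
    refine ⟨hP, hQ, fun hk => ?_⟩
    have h1 : (fam u w m).P ∣ (fam u w m).Q := dvd_of_eq hk
    rw [hP, zero_dvd_iff] at h1
    exact hQ h1
  refine ⟨?_, ?_, three, ?_, ?_⟩
  · intro R _ p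
    refine ⟨fun w hw hne => link_relations hw hne, dvd_of_eq, fun h => ?_⟩
    obtain ⟨h1, h2, h3, h4⟩ := collapse h
    exact ⟨⟨h1, h2, h3⟩, h4⟩
  · intro K _ p h
    have hc : IsCoprime p.P p.Q := by
      rcases h with h | h
      · exact ⟨(p.P)⁻¹, 0, by simp [h]⟩
      · exact ⟨0, (p.Q)⁻¹, by simp [h]⟩
    obtain ⟨h1, h2, h3, h4⟩ := collapse hc
    exact ⟨⟨h1, h2, h3⟩, h4.trans isUnit_iff_ne_zero⟩
  · intro R _ _
    obtain ⟨m, hm⟩ := exists_good R
    refine ⟨m, three R 1 1 m ?_⟩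
    intro h
    apply hm
    rw [← h]
    push_cast
    ring
  · intro U _ p S _ _ h
    obtain ⟨m, hm⟩ := exists_good S
    obtain ⟨φ, ha, h0, h3, hi, h1, h2⟩ := h m
    exact ne_of_hom m hm φ ha h0 h3 hi h1 h2

end Pool.Agent.Results.MP_800496_gt.GenericCollapse
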