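import Mathlib
import Pool.Agent.Results.MP_800496_gt.GenericCollapse
import Pool.Agent.Results.MP_43d316_gt.Classification
import Pool.Agent.Y909.SK.Bridge

namespace Pool.Agent.Results.MP_800496_gt.FieldKernel

open Polynomial
open Pool.Agent.Results.MP_800496_gt.KernelLarger Pool.Agent.Results.MP_800496_gt.GenericCollapse
open Pool.Agent.Y909.SK.Bridge

/-! ### The kernel over an arbitrary ring -/

section General

variable {R : Type} [CommRing R] (p : Par R)

/-- the class of the trivial knot -/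
noncomputable def T1 : SkeinModule R p.a p.b0 p.b3 p.bi p.b1 p.b2 := p.cl (trivialLink 1)

theorem cl_trivial (i : ℕ) : p.cl (trivialLink (i + 1)) = p.t₀ ^ i • T1 p := by
  induction i with
  | zero => rw [pow_zero, one_smul]; rfl
  | succ i ih =>
    have h : trivialLink (i + 2) = [(0, Piece.cup), (0, Piece.cap)] ++ trivialLink (i + 1) := by
      simp [trivialLink, List.replicate_succ]
    have h2 := (link_relations (a := p.a) (b0 := p.b0) (b3 := p.b3) (bi := p.bi) (b1 := p.b1)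
      (b2 := p.b2) (width_trivialLink (i + 1)) (trivialLink_ne (i + 1) (by omega))).1
    rw [← h] at h2
    have h3 : p.cl (trivialLink (i + 2)) = p.t₀ • p.cl (trivialLink (i + 1)) := h2
    rw [h3, ih, smul_smul, pow_succ']

theorem map_X_mul (h : R[X]) : p.map (X * h) = h.eval p.t₀ • T1 p := by
  induction h using Polynomial.induction_on' with
  | add f g hf hg => rw [mul_add, map_add, hf, hg, eval_add, add_smul]
  | monomial i r =>
    have h1 : X * monomial i r = monomial (i + 1) r := by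
      rw [X_mul, monomial_mul_X]
    have h2 : p.map (monomial (i + 1) r) = r • p.cl (trivialLink (i + 1)) :=
      trivialMap_monomial (i + 1) r
    rw [h1, h2, cl_trivial, eval_monomial, smul_smul]

theorem map_C (r : R) : p.map (C r) = r • p.cl [] := by
  have h2 : p.map (monomial 0 r) = r • p.cl (trivialLink 0) := trivialMap_monomial 0 r
  exact h2

theorem ε_T1 : ε R p.a p.b0 p.b3 p.bi p.b1 p.b2 (T1 p) = 0 := by
  show ε R p.a p.b0 p.b3 p.bi p.b1 p.b2
    (c p.a p.b0 p.b3 p.bi p.b1 p.b2 (trivialLink 1)) = 0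
  unfold ε c
  rw [Submodule.mkQ_apply, Submodule.liftQ_apply,
    emptyCoeff_of_ne (trivialLink_ne 1 one_ne_zero)]

theorem ker_iff (f : R[X]) :
    p.map f = 0 ↔ ∃ h : R[X], f = X * h ∧ h.eval p.t₀ • T1 p = 0 := by
  constructor
  · intro hf
    have h1 : f = X * f.divX + C (f.coeff 0) := (Polynomial.X_mul_divX_add f).symm
    have h2 : p.map f = f.divX.eval p.t₀ • T1 p + f.coeff 0 • p.cl [] := by
      conv_lhs => rw [h1]
      rw [map_add, map_X_mul, map_C]
    have h3 := congrArg (ε R p.a p.b0 p.b3 p.bi p.b1 p.b2) h2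
    have h4 : ε R p.a p.b0 p.b3 p.bi p.b1 p.b2 (p.cl []) = 1 := ε_nil
    rw [hf, map_zero, map_add, map_smul, map_smul, ε_T1, h4, smul_zero, zero_add, smul_eq_mul,
      mul_one] at h3
    refine ⟨f.divX, ?_, ?_⟩
    · rw [← h3, C_0, add_zero] at h1
      exact h1
    · rw [hf, ← h3, zero_smul, add_zero] at h2
      exact h2.symm
  · rintro ⟨h, rfl, hh⟩
    rw [map_X_mul, hh]

theorem P_T1 : p.P • T1 p = 0 :=
  (link_relations (a := p.a) (b0 := p.b0) (b3 := p.b3) (bi := p.bi) (b1 := p.b1)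
      (b2 := p.b2) (width_trivialLink 1) (trivialLink_ne 1 one_ne_zero)).2.1

theorem kernel_iff : p.KernelIsI ↔ ∀ r : R, r • T1 p = 0 → p.P ∣ r := by
  constructor
  · intro h r hr
    have h1 : C r * X ∈ idealI R p.a p.b0 p.b3 p.bi p.b1 p.b2 := by
      have h2 : p.map (C r * X) = 0 := by
        rw [mul_comm, map_X_mul, eval_C, hr]
      have h3 : C r * X ∈ LinearMap.ker p.map := h2
      rwa [h] at h3
    exact (mem_I_iff r).1 h1
  · intro h
    show LinearMap.ker p.map = idealI R p.a p.b0 p.b3 p.bi p.b1 p.b2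
    apply le_antisymm
    · intro f hf
      obtain ⟨g, rfl, hg⟩ := (ker_iff p f).1 hf
      have h1 : C (g.eval p.t₀) * X ∈ idealI R p.a p.b0 p.b3 p.bi p.b1 p.b2 :=
        (mem_I_iff _).2 (h _ hg)
      obtain ⟨u, hu⟩ := Polynomial.X_sub_C_dvd_sub_C_eval (p := g) (a := p.t₀)
      have h2 : C ((p.bi⁻¹ : Rˣ) : R) * p1 R p.a p.b0 p.b3 p.bi p.b1 p.b2 = X - C p.t₀ := by
        have hb : (C ((p.bi⁻¹ : Rˣ) : R) : R[X]) * C (p.bi : R) = 1 := by
          rw [← C_mul, Units.inv_mul, C_1]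
        show _ = X - C (t0 R p.a p.b0 p.b3 p.bi p.b1 p.b2)
        simp only [p1, t0, C_add, C_mul, C_neg, C_pow]
        linear_combination X * hb
      have h3 : X * (g - C (g.eval p.t₀)) ∈ idealI R p.a p.b0 p.b3 p.bi p.b1 p.b2 := by
        unfold idealI
        rw [Submodule.restrictScalars_mem, hu, ← h2]
        have h4 : X * (C ((p.bi⁻¹ : Rˣ) : R) * p1 R p.a p.b0 p.b3 p.bi p.b1 p.b2 * u)
            = (C ((p.bi⁻¹ : Rˣ) : R) * u) * (X * p1 R p.a p.b0 p.b3 p.bi p.b1 p.b2) := by ring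
        rw [h4]
        exact Ideal.mul_mem_left _ _ (Ideal.subset_span (Set.mem_insert _ _))
      have h5 : X * g = X * (g - C (g.eval p.t₀)) + C (g.eval p.t₀) * X := by ring
      rw [h5]
      exact add_mem h3 h1
    · intro f hf
      unfold idealI at hf
      rw [Submodule.restrictScalars_mem, Ideal.mem_span_pair] at hf
      obtain ⟨u, v, rfl⟩ := hf
      have h1 : u * (X * p1 R p.a p.b0 p.b3 p.bi p.b1 p.b2) +
          v * (X * p2 R p.a p.b0 p.b3 p.bi p.b1 p.b2)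
          = X * (u * p1 R p.a p.b0 p.b3 p.bi p.b1 p.b2 + v * p2 R p.a p.b0 p.b3 p.bi p.b1 p.b2) := by
        ring
      rw [h1]
      show p.map _ = 0
      rw [map_X_mul, eval_add, eval_mul, eval_mul]
      have h2 : (p1 R p.a p.b0 p.b3 p.bi p.b1 p.b2).eval p.t₀ = 0 := p1_eval
      have h3 : (p2 R p.a p.b0 p.b3 p.bi p.b1 p.b2).eval p.t₀ = p.P := rfl
      rw [h2, h3, mul_zero, zero_add, mul_smul, P_T1, smul_zero]

end General

/-! ### Fields -/

section Field

open Pool.Agent.Helper62.Families Pool.Agent.Helper62.SkeinFam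
open Pool.Agent.Results.MP_43d316_gt.TorsionFamilies (UnknotTorsion necessary)
open Pool.Agent.Results.MP_43d316_gt.Classification (mapK mapB mapO domain_suf)

variable {K : Type} [Field K] (p : Par K)

/-- Kauffman and Dubrovnik type: the skein relation follows from a relation
`σ + ε σ⁻¹ = z (1 + ε e)` with `ε = ±1` and `z ≠ 0`. -/
def IsK : Prop :=
  ∃ ε z : K, (ε = 1 ∨ ε = -1) ∧ z ≠ 0 ∧ p.b1 = ε * (p.b3 - z * p.b0) ∧
    p.b2 = ε * p.b0 - z * p.b3 ∧ (p.a : K) ^ 2 * p.bi = -(z * (p.a * p.b0 + ε * p.b3))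

/-- Kauffman bracket type: the skein relation follows from `σ = A + A⁻¹ e`. -/
def IsB : Prop :=
  ∃ A : K, (p.a : K) = -A ^ 3 ∧ p.b0 + p.b1 * A + p.b2 * A ^ 2 + p.b3 * A ^ 3 = 0 ∧
    p.b1 * A ^ 6 + p.b2 * (A ^ 7 - A ^ 3) + p.b3 * (A ^ 8 - A ^ 4 + 1) + p.bi * A ^ 7 = 0

/-- one-dimensional type: the skein relation follows from `σ = a⁻¹`, `e = a²`, `a⁴ = 1`. -/
def IsO : Prop :=
  (p.a : K) ^ 4 = 1 ∧ (p.a : K) ^ 3 * p.b0 + p.a ^ 2 * p.b1 + p.a * p.b2 + p.b3 + p.a * p.bi = 0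

/-- products of two Kauffman brackets, with `σ = (A B)⁻¹` on the trace-free part -/
def IsS : Prop :=
  ∃ A B : K, A ≠ 0 ∧ B ≠ 0 ∧ (p.a : K) = (A * B) ^ 3 ∧ p.b0 * (A * B) = -p.b3 ∧
    p.b1 * (A * B) ^ 2 = p.b3 * (1 - A ^ 4 - B ^ 4) ∧
    p.b2 * (A * B) ^ 3 = p.b3 * (A ^ 4 + B ^ 4 - A ^ 4 * B ^ 4) ∧
    p.bi * (A * B) ^ 7 = p.b3 * (A ^ 4 * B ^ 4 - 1)

/-- the exceptional family -/
def IsY : Prop :=
  (p.a : K) * p.b0 ^ 3 = -p.b3 ^ 3 ∧ (p.a : K) * p.bi * p.b3 ^ 2 = p.b0 * (p.b2 * p.b3 - p.b0 * p.b1)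

theorem wH_T1 : wH (trivialLink 1) = Pool.Agent.Helper62.Skein.trivialLink 1 := rfl

theorem wK_T1 : wK (Pool.Agent.Helper62.Skein.trivialLink 1) = trivialLink 1 := rfl

theorem T1_zero_iff_mem : T1 p = 0 ↔
    link K (trivialLink 1) ∈ relations K p.a p.b0 p.b3 p.bi p.b1 p.b2 := by
  show (relations K p.a p.b0 p.b3 p.bi p.b1 p.b2).mkQ (link K (trivialLink 1)) = 0 ↔ _
  rw [Submodule.mkQ_apply, Submodule.Quotient.mk_eq_zero]

theorem torsion_iff_T1 : UnknotTorsion p.a p.b0 p.b3 p.b1 p.b2 (p.bi : K) ↔ T1 p = 0 := by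
  rw [T1_zero_iff_mem, Pool.Agent.Results.MP_43d316_gt.Classification.torsion_iff]
  constructor
  · rintro ⟨r, hr, h⟩
    have hr0 : r ≠ 0 := nonZeroDivisors.ne_zero hr
    have h1 := Submodule.smul_mem _ r⁻¹ h
    rw [smul_smul, inv_mul_cancel₀ hr0, one_smul] at h1
    have h2 := rel_mK K p.a p.b0 p.b3 p.bi p.b1 p.b2 h1
    rwa [link_mK, wK_T1] at h2
  · intro h
    refine ⟨1, one_mem _, ?_⟩
    rw [one_smul]
    have h2 := rel_mH K p.a p.b0 p.b3 p.bi p.b1 p.b2 h
    rwa [link_mH, wH_T1] at h2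

theorem mapS {L : Type*} [Field L] (f : K →+* L) {a b0 b1 b2 b3 bi : K}
    (h : FamilyS a b0 b1 b2 b3 bi) : FamilyS (f a) (f b0) (f b1) (f b2) (f b3) (f bi) := by
  obtain ⟨A, B, hA, hB, h1, h2, h3, h4, h5⟩ := h
  exact ⟨f A, f B, (map_ne_zero f).2 hA, (map_ne_zero f).2 hB, by simpa using congrArg f h1,
    by simpa using congrArg f h2, by simpa using congrArg f h3, by simpa using congrArg f h4,
    by simpa using congrArg f h5⟩

theorem T1_ne (h : IsK p ∨ IsB p ∨ IsO p ∨ IsS p) : T1 p ≠ 0 := by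
  rw [Ne, ← torsion_iff_T1]
  refine domain_suf p.a p.b0 p.b3 p.b1 p.b2 (p.bi : K) rfl rfl rfl rfl rfl rfl ?_
  rcases h with h | h | h | h
  · exact Or.inl (mapK _ h)
  · exact Or.inr (Or.inl (mapB _ h))
  · exact Or.inr (Or.inr (Or.inl (mapO _ h)))
  · exact Or.inr (Or.inr (Or.inr (mapS _ h)))

theorem families_of_T1 (h : T1 p ≠ 0) : IsY p ∨ IsK p ∨ IsB p ∨ IsO p := by
  rw [Ne, ← torsion_iff_T1] at h
  rcases necessary (K := K) p.a p.b0 p.b3 p.b1 p.b2 (p.bi : K) h with h | h | h | h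
  · left
    exact ⟨h.1, h.2.1⟩
  · right; left
    exact h
  · right; right; left
    exact h
  · right; right; right
    exact h

theorem kernel_field : p.KernelIsI ↔ p.P ≠ 0 ∨ T1 p ≠ 0 := by
  rw [kernel_iff]
  constructor
  · intro h
    by_contra hc
    push Not at hc
    have h1 := h 1 (by rw [hc.2, smul_zero])
    rw [hc.1, zero_dvd_iff] at h1
    exact one_ne_zero h1
  · rintro (h | h) r hr
    · exact (isUnit_iff_ne_zero.2 h).dvd
    · rcases smul_eq_zero.1 hr with h1 | h1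
      · rw [h1]
        exact dvd_zero _
      · exact absurd h1 h

end Field

/-- **Main theorem.** Every ring: the kernel of `t ^ i ↦ T_i` consists of the polynomials `t h(t)`
with `h(t₀) T₁ = 0`; it is the ideal of the question exactly when every `r` with `r T₁ = 0` is a
multiple of `P = p₂(t₀)`. Every field: it is the ideal of the question if `P ≠ 0` or the parameters
are in one of the families `K`, `B`, `O`, `S`, and only if `P ≠ 0` or they are in one of the
families `K`, `B`, `O`, `Y`. -/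
theorem result :
    (∀ (R : Type) [CommRing R] (p : Par R),
      (∀ f : R[X], p.map f = 0 ↔
        ∃ h : R[X], f = X * h ∧ h.eval p.t₀ • p.cl (trivialLink 1) = 0) ∧
      (p.KernelIsI ↔ ∀ r : R, r • p.cl (trivialLink 1) = 0 → p.P ∣ r)) ∧
    (∀ (K : Type) [Field K] (p : Par K),
      (p.P ≠ 0 ∨ IsK p ∨ IsB p ∨ IsO p ∨ IsS p → p.KernelIsI) ∧
      (p.KernelIsI → p.P ≠ 0 ∨ IsK p ∨ IsB p ∨ IsO p ∨ IsY p)) := by
  refine ⟨fun R _ p => ⟨ker_iff p, kernel_iff p⟩, fun K _ p => ⟨?_, ?_⟩⟩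
  · rintro (h | h)
    · exact (kernel_field p).2 (Or.inl h)
    · exact (kernel_field p).2 (Or.inr (T1_ne p h))
  · intro h
    rcases (kernel_field p).1 h with h | h
    · exact Or.inl h
    · rcases families_of_T1 p h with h | h | h | h
      · exact Or.inr (Or.inr (Or.inr (Or.inr h)))
      · exact Or.inr (Or.inl h)
      · exact Or.inr (Or.inr (Or.inl h))
      · exact Or.inr (Or.inr (Or.inr (Or.inl h)))

end Pool.Agent.Results.MP_800496_gt.FieldKernel
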